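import Pool.Agent.H6EV.NonIso

/-!
# Non-nilpotent evolution algebras all of whose subalgebras are evolution subalgebras

Question 1 of MP_fa30b9_al in full (affirmative): every finite-dimensional non-nilpotent complex
evolution algebra satisfying condition `P` is isomorphic to `ES₁ ⊕ ℂ^(n-1)` or to
`ES₁ ⊕ N ⊕ ℂ^(n-s-1)` with `2 ≤ s ≤ n - 1` and `N` in `ZN^s`, and these algebras are pairwise
non-isomorphic.

Proof in outline.  If `u` spans a subalgebra, condition `P` gives `u E ⊆ ℂ u²` (`R1`).  Let `D` be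
the limit of the lower central series `C_(k+1) = C_k E`.  By `P` it is spanned by part of a natural
basis, and `D E = D` says that the squares of these basis vectors are again a basis of `D`.  Every
such perfect evolution algebra `D ≠ 0` has a nonzero idempotent (`exists_sol`: the system
`∑ x_i² a_ik = x_k` has a nonzero solution for every invertible matrix; one takes a simultaneous
eigenvector of the multiplications by the `x_k` on the span of the squarefree monomials), and if
`dim D ≥ 2` even one of support at least two, which contradicts `R1`.  So `D` is the line of an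
idempotent `e`.  Two further applications of `P` show that `e` splits off, and that in the
nilpotent complement `N` the square `N²` omits only one of the generators with nonzero square.
The index of nilpotency is computed from the lower central series.

The sufficient condition for Question 1 quoted in the problem file (the system has a solution with
all `x_i ≠ 0`) fails for `n = 3`; see `no_full_solution` below.
-/

set_option autoImplicit false

namespace Pool.Agent.Results.MP_fa30b9_al.ConditionP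

open Pool.Agent.H6EV Module

universe u

/-- The `m`-dimensional algebra with zero product. -/
abbrev zeroAlg (m : ℕ) : (Fin m → ℂ) →ₗ[ℂ] (Fin m → ℂ) →ₗ[ℂ] (Fin m → ℂ) := 0

/-- There is an invertible `3 × 3` matrix `a` such that every solution of
`x_i² = ∑_j a_(j,i) x_j` has a vanishing coordinate. -/
theorem no_full_solution : ∃ a : Matrix (Fin 3) (Fin 3) ℂ, IsUnit a ∧
    ∀ x : Fin 3 → ℂ, (∀ i, x i ^ 2 = ∑ j, a j i * x j) → ∃ i, x i = 0 := by
  refine ⟨!![1, 1, 0; 1, -3, 0; 2, -2, 1], ?_, ?_⟩
  · rw [Matrix.isUnit_iff_isUnit_det, Matrix.det_fin_three]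
    simp
    norm_num
  · intro x hx
    by_contra hcon
    push Not at hcon
    have h0 := hx 0
    have h1 := hx 1
    have h2 := hx 2
    simp [Fin.sum_univ_three] at h0 h1 h2
    have h3 : x 2 = 1 := by
      have : x 2 * (x 2 - 1) = 0 := by linear_combination h2
      rcases mul_eq_zero.mp this with h | h
      · exact absurd h (hcon 2)
      · exact sub_eq_zero.mp h
    have h4 : x 0 ^ 3 * (x 0 - 2) = 0 := by
      have h5 : x 1 = x 0 ^ 2 - x 0 - 2 := by rw [h3] at h0; linear_combination -h0
      rw [h3, h5] at h1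
      linear_combination h1
    have h6 : x 0 = 2 := by
      rcases mul_eq_zero.mp h4 with h | h
      · exact absurd (pow_eq_zero_iff (by norm_num) |>.mp h) (hcon 0)
      · exact sub_eq_zero.mp h
    apply hcon 1
    rw [h3, h6] at h0
    linear_combination -h0

/-- **Question 1 of MP_fa30b9_al.** -/
theorem result :
    (∀ (E : Type u) [AddCommGroup E] [Module ℂ E] [FiniteDimensional ℂ E]
      (μ : E →ₗ[ℂ] E →ₗ[ℂ] E), IsEvolution μ → ¬ IsNilp μ → CondP μ →
        Iso μ (dsum ES1 (zeroAlg (finrank ℂ E - 1))) ∨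
        ∃ s, 2 ≤ s ∧ s ≤ finrank ℂ E - 1 ∧
          ∃ ν : (Fin s → ℂ) →ₗ[ℂ] (Fin s → ℂ) →ₗ[ℂ] (Fin s → ℂ), ZN s ν ∧
            Iso μ (dsum ES1 (dsum ν (zeroAlg (finrank ℂ E - 1 - s))))) ∧
    (∀ (n s : ℕ) (ν : (Fin s → ℂ) →ₗ[ℂ] (Fin s → ℂ) →ₗ[ℂ] (Fin s → ℂ)),
      2 ≤ s → s ≤ n - 1 → ZN s ν →
        ¬ Iso (dsum ES1 (zeroAlg (n - 1))) (dsum ES1 (dsum ν (zeroAlg (n - 1 - s))))) ∧
    (∀ (n s s' : ℕ) (ν : (Fin s → ℂ) →ₗ[ℂ] (Fin s → ℂ) →ₗ[ℂ] (Fin s → ℂ))
      (ν' : (Fin s' → ℂ) →ₗ[ℂ] (Fin s' → ℂ) →ₗ[ℂ] (Fin s' → ℂ)),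
      2 ≤ s → s ≤ n - 1 → 2 ≤ s' → s' ≤ n - 1 → ZN s ν → ZN s' ν' →
        Iso (dsum ES1 (dsum ν (zeroAlg (n - 1 - s)))) (dsum ES1 (dsum ν' (zeroAlg (n - 1 - s')))) →
          s = s' ∧ Iso ν ν') := by
  refine ⟨?_, ?_, ?_⟩
  · intro E _ _ _ μ hE hN hP
    exact classify hE hN hP
  · intro n s ν hs _ hν
    exact not_iso_zero hs hν
  · intro n s s' ν ν' hs _ hs' _ hν hν' h
    exact iso_data hs hs' hν hν' h

end Pool.Agent.Results.MP_fa30b9_al.ConditionP
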